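import Mathlib
import Pool.Agent.GrothDefs
import Pool.Agent.GrothMain

set_option autoImplicit false

namespace Pool.Agent.Results.MP_0f8365_gt.CountableFactor

open Pool.Agent.Groth

/-- If `X` is a Grothendieck space and `Y` is a countable space then `X × Y` is Grothendieck. -/
theorem result.{u, v} : ∀ (X : Type u) (Y : Type v) [TopologicalSpace X] [T35Space X]
    [TopologicalSpace Y] [T35Space Y] [Countable Y], Grothendieck X → Grothendieck (X × Y) :=
  fun _ _ _ _ _ _ _ h => main h

end Pool.Agent.Results.MP_0f8365_gt.CountableFactor
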